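import Mathlib

/-! The Engel-Jacobson theorem for bracket-closed sets, and a collecting lemma. -/

set_option autoImplicit false

namespace Pool.Agent.MP_3312ae_al.HR.EJ

variable {K R : Type*} [Field K] [Ring R] [Algebra K R]

/-- Iterated one-sided multiples by `T`. -/
def G (T : Submodule K R) : ℕ → Submodule K R
  | 0 => ⊤
  | j + 1 => T * G T j ⊔ G T j * T

theorem pow_bot_of_le {T : Submodule K R} {k a : ℕ} (hk : T ^ k = ⊥) (h : k ≤ a) : T ^ a = ⊥ := by
  obtain ⟨c, rfl⟩ := Nat.exists_eq_add_of_le h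
  rw [pow_add, hk, Submodule.bot_mul]

theorem G_bot {T : Submodule K R} {k : ℕ} (hk : T ^ k = ⊥) :
    ∀ j a b : ℕ, 2 * k ≤ a + b + j → T ^ a * G T j * T ^ b = ⊥ := by
  intro j
  induction j with
  | zero =>
    intro a b h
    by_cases ha : k ≤ a
    · rw [pow_bot_of_le hk ha, Submodule.bot_mul, Submodule.bot_mul]
    · rw [pow_bot_of_le hk (a := b) (by omega), Submodule.mul_bot]
  | succ j ih =>
    intro a b h
    have h1 := ih (a + 1) b (by omega)
    have h2 := ih a (b + 1) (by omega)
    rw [pow_succ, mul_assoc (T ^ a)] at h1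
    rw [pow_succ', ← mul_assoc, mul_assoc (T ^ a)] at h2
    rw [G, Submodule.mul_sup, Submodule.sup_mul, h1, h2, bot_sup_eq]

theorem exists_normaliser (W : Set R) (hbr : ∀ x ∈ W, ∀ y ∈ W, x * y - y * x ∈ W)
    {T : Submodule K R} {k : ℕ} (hk : T ^ k = ⊥) (hT : T ≤ Submodule.span K (W ∩ T))
    {w : R} (hw : w ∈ W) (hwT : w ∉ T) :
    ∃ v ∈ W, v ∉ T ∧ ∀ s ∈ T, v * s - s * v ∈ T := by
  by_contra hc
  push Not at hc
  have key : ∀ j, ∃ v ∈ W, v ∉ T ∧ v ∈ G T j := by
    intro j
    induction j with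
    | zero => exact ⟨w, hw, hwT, Submodule.mem_top⟩
    | succ j ih =>
      obtain ⟨v, hv, hvT, hvG⟩ := ih
      obtain ⟨s, hs, hs'⟩ := hc v hv hvT
      have : ∃ s ∈ W ∩ (T : Set R), v * s - s * v ∉ T := by
        by_contra hn
        push Not at hn
        apply hs'
        refine Submodule.span_induction (p := fun s _ => v * s - s * v ∈ T) hn (by simp) ?_ ?_
          (hT hs)
        · intro x y _ _ hx hy
          have := T.add_mem hx hy
          convert this using 1
          noncomm_ring
        · intro c x _ hx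
          have := T.smul_mem c hx
          convert this using 1
          simp [smul_sub]
      obtain ⟨s, ⟨hsW, hsT⟩, hs'⟩ := this
      refine ⟨_, hbr v hv s hsW, hs', ?_⟩
      exact Submodule.sub_mem _ (Submodule.mem_sup_right (Submodule.mul_mem_mul hvG hsT))
        (Submodule.mem_sup_left (Submodule.mul_mem_mul hsT hvG))
  obtain ⟨v, _, hvT, hvG⟩ := key (2 * k)
  have h0 := G_bot hk (2 * k) 0 0 (by omega)
  simp only [pow_zero, one_mul, mul_one] at h0
  rw [h0, Submodule.mem_bot] at hvG
  exact hvT (hvG ▸ T.zero_mem)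

theorem nil_sup {T : Submodule K R} {k l : ℕ} (hk : T ^ k = ⊥) {w : R} (hl : w ^ l = 0)
    (hw : ∀ s ∈ T, w * s - s * w ∈ T) : (T ⊔ Submodule.span K {w}) ^ (l * k) = ⊥ := by
  set U := Submodule.span K {w} with hU
  have hUT : U * T ≤ T * U ⊔ T := by
    rw [hU, Submodule.mul_le]
    intro x hx s hs
    obtain ⟨c, rfl⟩ := Submodule.mem_span_singleton.1 hx
    have : c • w * s = c • (s * w + (w * s - s * w)) := by simp
    rw [this]
    exact Submodule.smul_mem _ _ (Submodule.add_mem_sup
      (Submodule.mul_mem_mul hs (Submodule.mem_span_singleton_self w)) (hw s hs))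
  have hJ : ∀ a, U * (T ^ a * ⊤) ≤ T ^ a * ⊤ := by
    intro a
    induction a with
    | zero => simp
    | succ a ih =>
      rw [pow_succ', mul_assoc, ← mul_assoc U]
      refine (mul_le_mul_left hUT _).trans ?_
      rw [Submodule.sup_mul, mul_assoc]
      exact sup_le (mul_le_mul_right ih _) le_rfl
  have hJn : ∀ n a, U ^ n * (T ^ a * ⊤) ≤ T ^ a * ⊤ := by
    intro n a
    induction n with
    | zero => simp
    | succ n ih => rw [pow_succ', mul_assoc]; exact (mul_le_mul_right ih _).trans (hJ a)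
  have hT1 : ∀ a, T * (T ^ a * ⊤) = T ^ (a + 1) * ⊤ := fun a => by rw [pow_succ', mul_assoc]
  have hmono : ∀ a, T ^ (a + 1) * ⊤ ≤ T ^ a * ⊤ := fun a => by
    rw [pow_succ, mul_assoc]; exact mul_le_mul_right le_top _
  have hstep : ∀ n a, (T ⊔ U) ^ n * (T ^ a * ⊤) ≤ T ^ (a + 1) * ⊤ ⊔ U ^ n * (T ^ a * ⊤) := by
    intro n a
    induction n with
    | zero => simp
    | succ n ih =>
      rw [pow_succ', mul_assoc]
      refine (mul_le_mul_right ih _).trans ?_
      rw [Submodule.mul_sup, Submodule.sup_mul, Submodule.sup_mul]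
      refine sup_le (sup_le ?_ ?_) (sup_le ?_ ?_)
      · rw [hT1]; exact (hmono _).trans le_sup_left
      · exact (hJ _).trans le_sup_left
      · refine le_trans ?_ le_sup_left
        rw [← hT1]; exact mul_le_mul_right (hJn n a) _
      · rw [← mul_assoc, ← pow_succ']; exact le_sup_right
  have hUl : U ^ l = ⊥ := by
    rw [hU, Submodule.span_pow, Set.singleton_pow, hl, Submodule.span_zero_singleton]
  have hfin : ∀ a, (T ⊔ U) ^ (l * a) ≤ T ^ a * ⊤ := by
    intro a
    induction a with
    | zero => simp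
    | succ a ih =>
      rw [Nat.mul_succ, add_comm, pow_add]
      refine (mul_le_mul_right ih _).trans ((hstep l a).trans ?_)
      rw [hUl, Submodule.bot_mul, sup_bot_eq]
  have := hfin k
  rwa [hk, Submodule.bot_mul, le_bot_iff] at this

/-- Engel-Jacobson, submodule form. -/
theorem ej_pow (W : Set R) (hbr : ∀ x ∈ W, ∀ y ∈ W, x * y - y * x ∈ W)
    (hnil : ∀ x ∈ W, IsNilpotent x) [FiniteDimensional K (Submodule.span K W)] :
    ∃ N : ℕ, Submodule.span K W ^ N = ⊥ := by
  have key : ∀ (n : ℕ) (T : Submodule K R), T ≤ Submodule.span K (W ∩ T) →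
      (∀ x ∈ T, ∀ y ∈ T, x * y - y * x ∈ T) → (∃ k, T ^ k = ⊥) →
      Module.finrank K (Submodule.span K W) ≤ Module.finrank K T + n →
      ∃ N : ℕ, Submodule.span K W ^ N = ⊥ := by
    intro n
    induction n with
    | zero =>
      intro T hT _ hk hr
      have hle : T ≤ Submodule.span K W := hT.trans (Submodule.span_mono Set.inter_subset_left)
      rw [← Submodule.eq_of_le_of_finrank_le hle (by simpa using hr)]
      exact hk
    | succ n ih =>
      intro T hT hb ⟨k, hk⟩ hr
      have hle : T ≤ Submodule.span K W := hT.trans (Submodule.span_mono Set.inter_subset_left)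
      by_cases hW : W ⊆ T
      · exact ⟨k, by rw [le_antisymm (Submodule.span_le.2 hW) hle, hk]⟩
      obtain ⟨w, hw, hwT⟩ := Set.not_subset.1 hW
      obtain ⟨v, hv, hvT, hvn⟩ := exists_normaliser W hbr hk hT hw hwT
      obtain ⟨l, hl⟩ := hnil v hv
      have hv' : v ∈ T ⊔ Submodule.span K {v} :=
        Submodule.mem_sup_right (Submodule.mem_span_singleton_self v)
      have hle' : T ⊔ Submodule.span K {v} ≤ Submodule.span K W :=
        sup_le hle (Submodule.span_mono (Set.singleton_subset_iff.2 hv))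
      refine ih (T ⊔ Submodule.span K {v}) ?_ ?_ ⟨_, nil_sup hk hl hvn⟩ ?_
      · refine sup_le (hT.trans (Submodule.span_mono ?_)) (Submodule.span_mono ?_)
        · exact Set.inter_subset_inter_right _ (fun x hx => Submodule.mem_sup_left hx)
        · exact Set.singleton_subset_iff.2 ⟨hv, hv'⟩
      · intro x hx y hy
        obtain ⟨s, hs, x', hx', rfl⟩ := Submodule.mem_sup.1 hx
        obtain ⟨t, ht, y', hy', rfl⟩ := Submodule.mem_sup.1 hy
        obtain ⟨c, rfl⟩ := Submodule.mem_span_singleton.1 hx'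
        obtain ⟨d, rfl⟩ := Submodule.mem_span_singleton.1 hy'
        apply Submodule.mem_sup_left
        have := T.sub_mem (T.add_mem (hb s hs t ht) (T.smul_mem c (hvn t ht)))
          (T.smul_mem d (hvn s hs))
        convert this using 1
        simp only [mul_add, add_mul, Algebra.mul_smul_comm, Algebra.smul_mul_assoc]
        module
      · have : FiniteDimensional K (T ⊔ Submodule.span K {v} : Submodule K R) :=
          Submodule.finiteDimensional_of_le hle'
        have hlt : T < T ⊔ Submodule.span K {v} :=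
          lt_of_le_of_ne le_sup_left (fun h => hvT (h ▸ hv'))
        have := Submodule.finrank_lt_finrank_of_lt hlt
        omega
  exact key (Module.finrank K (Submodule.span K W)) ⊥ bot_le (by simp) ⟨1, by simp⟩ (by simp)

theorem prod_mem_pow (T : Submodule K R) :
    ∀ l : List R, (∀ x ∈ l, x ∈ T) → l.prod ∈ T ^ l.length := by
  intro l
  induction l with
  | nil => intro _; simpa using (Submodule.one_le (P := (1 : Submodule K R))).1 le_rfl
  | cons a l ih =>
    intro h
    rw [List.prod_cons, List.length_cons, pow_succ']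
    exact Submodule.mul_mem_mul (h a (by simp)) (ih fun x hx => h x (by simp [hx]))

/-- Engel-Jacobson: long products of elements of a bracket-closed set of nilpotent elements with
finite-dimensional span vanish. -/
theorem ej (W : Set R) (hbr : ∀ x ∈ W, ∀ y ∈ W, x * y - y * x ∈ W)
    (hnil : ∀ x ∈ W, IsNilpotent x) [FiniteDimensional K (Submodule.span K W)] :
    ∃ N : ℕ, ∀ l : List R, (∀ x ∈ l, x ∈ W) → N ≤ l.length → l.prod = 0 := by
  obtain ⟨N, hN⟩ := ej_pow (K := K) W hbr hnil
  refine ⟨N, fun l hl hlen => ?_⟩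
  have := prod_mem_pow (Submodule.span K W) l fun x hx => Submodule.subset_span (hl x hx)
  rwa [pow_bot_of_le hN hlen, Submodule.mem_bot] at this

/-! Collecting -/

theorem one_mem_one : (1 : R) ∈ (1 : Submodule K R) := Submodule.one_le.1 le_rfl

theorem pow_mono_one {F : Submodule K R} (h : 1 ≤ F) {a b : ℕ} (hab : a ≤ b) : F ^ a ≤ F ^ b := by
  induction hab with
  | refl => exact le_rfl
  | step _ ih =>
    refine ih.trans ?_
    rw [pow_succ]
    simpa using mul_le_mul_right h _

theorem perm_sub {Ls : Submodule K R} (hbr : ∀ x ∈ Ls, ∀ y ∈ Ls, x * y - y * x ∈ Ls)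
    {l l' : List R} (h : l.Perm l') :
    (∀ x ∈ l, x ∈ Ls) → l.prod - l'.prod ∈ (1 ⊔ Ls) ^ (l.length - 1) := by
  induction h with
  | nil => intro _; simp
  | @cons a l l' h ih =>
    intro hl
    have h1 := ih fun x hx => hl x (by simp [hx])
    rw [List.prod_cons, List.prod_cons, ← mul_sub]
    rcases l with _ | ⟨b, l⟩
    · rw [h.nil_eq]; simp
    · simp only [List.length_cons, Nat.add_sub_cancel] at h1 ⊢
      rw [pow_succ']
      exact Submodule.mul_mem_mul (Submodule.mem_sup_right (hl a (by simp))) h1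
  | swap a b l =>
    intro hl
    have : (b :: a :: l).prod - (a :: b :: l).prod = (b * a - a * b) * l.prod := by
      simp only [List.prod_cons]; noncomm_ring
    rw [this]
    simp only [List.length_cons, Nat.add_sub_cancel]
    rw [pow_succ']
    exact Submodule.mul_mem_mul
      (Submodule.mem_sup_right (hbr b (hl b (by simp)) a (hl a (by simp))))
      (prod_mem_pow _ l fun x hx => Submodule.mem_sup_right (hl x (by simp [hx])))
  | @trans l1 l2 l3 h1 _ ih1 ih2 =>
    intro hl
    have := Submodule.add_mem _ (ih1 hl)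
      (h1.length_eq ▸ ih2 fun x hx => hl x (h1.mem_iff.2 hx))
    simpa using this

theorem span_pow_le {Ls : Submodule K R} (hbr : ∀ x ∈ Ls, ∀ y ∈ Ls, x * y - y * x ∈ Ls)
    (C : Finset R) (hC : ∀ c ∈ C, c ∈ Ls) (hn : ∀ c ∈ C, IsNilpotent c) :
    ∃ m : ℕ, Submodule.span K (C : Set R) ^ (m + 1) ≤ (1 ⊔ Ls) ^ m := by
  classical
  obtain ⟨N, hN⟩ : ∃ N : ℕ, ∀ c ∈ C, c ^ N = 0 := by
    choose! f hf using hn
    exact ⟨C.sup f, fun c hc => pow_eq_zero_of_le (Finset.le_sup hc) (hf c hc)⟩
  refine ⟨C.card * N, ?_⟩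
  rw [Submodule.span_pow, Submodule.span_le]
  intro x hx
  obtain ⟨f, rfl⟩ := Set.mem_pow.1 hx
  set l : List R := List.ofFn fun i => (f i : R) with hl
  have hlen : l.length = C.card * N + 1 := by simp [hl]
  have hlC : ∀ x ∈ l, x ∈ C := by
    intro x hx
    obtain ⟨i, rfl⟩ := List.mem_ofFn.1 hx
    exact (f i).2
  obtain ⟨c, hc⟩ : ∃ c, N ≤ l.count c := by
    by_contra hcon
    push Not at hcon
    have h1 : l.length = ∑ c ∈ l.toFinset, l.count c := (List.sum_toFinset_count_eq_length l).symm
    have h2 : ∑ c ∈ l.toFinset, l.count c ≤ l.toFinset.card * N :=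
      Finset.sum_le_card_nsmul _ _ N fun c _ => (hcon c).le
    have h3 : l.toFinset.card ≤ C.card :=
      Finset.card_le_card fun x hx => hlC x (List.mem_toFinset.1 hx)
    have := Nat.mul_le_mul_right N h3
    omega
  obtain ⟨l', hl'⟩ := (List.replicate_sublist_iff.2 hc).exists_perm_append
  have h := perm_sub hbr hl' fun x hx => hC x (hlC x hx)
  rw [hlen, Nat.add_sub_cancel] at h
  have h0 : (List.replicate N c ++ l').prod = 0 := by
    rcases Nat.eq_zero_or_pos N with rfl | hpos
    · obtain ⟨i⟩ : Nonempty (Fin (C.card * 0 + 1)) := inferInstance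
      have h1 : (1 : R) = 0 := by simpa using hN _ (f i).2
      rw [← one_mul (List.prod _), h1, zero_mul]
    · have hcl : c ∈ l := List.count_pos_iff.1 (by omega)
      rw [List.prod_append, List.prod_replicate, hN c (hlC c hcl), zero_mul]
  simpa [h0] using h

theorem sup_pow_le (Ls : Submodule K R) (t : ℕ) :
    (1 ⊔ Ls) ^ (t + 1) ≤ Ls ^ (t + 1) ⊔ (1 ⊔ Ls) ^ t := by
  induction t with
  | zero => simp [sup_comm]
  | succ t ih =>
    rw [pow_succ' (1 ⊔ Ls) (t + 1)]
    refine (mul_le_mul_right ih _).trans ?_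
    rw [Submodule.mul_sup, Submodule.sup_mul, one_mul, ← pow_succ', ← pow_succ']
    exact sup_le (sup_le ((pow_le_pow_left' le_sup_right _).trans le_sup_right)
      le_sup_left) le_sup_right

/-- If a product of two elements of `Ls` can be rewritten with a factor from the finite nilpotent
set `C`, the algebra generated by `Ls` is `(K + Ls) * B` with `B` finite-dimensional. -/
theorem col {Ls : Submodule K R} (hbr : ∀ x ∈ Ls, ∀ y ∈ Ls, x * y - y * x ∈ Ls)
    (C : Finset R) (hC : ∀ c ∈ C, c ∈ Ls) (hn : ∀ c ∈ C, IsNilpotent c)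
    (hLL : Ls * Ls ≤ Ls * Submodule.span K (C : Set R) ⊔ Ls) :
    ∃ m : ℕ, ∀ t : ℕ,
      (1 ⊔ Ls) ^ t ≤ (1 ⊔ Ls) * (1 ⊔ Submodule.span K (C : Set R)) ^ m := by
  set S := Submodule.span K (C : Set R) with hS
  set F := 1 ⊔ Ls with hF
  have hSL : S ≤ Ls := Submodule.span_le.2 hC
  have hLF : Ls ≤ F := le_sup_right
  have hSF : ∀ t, Ls * S ^ t ≤ F ^ (t + 1) := fun t => by
    rw [pow_succ']
    exact mul_le_mul' hLF (pow_le_pow_left' (hSL.trans hLF) _)
  have hA : ∀ t, Ls ^ (t + 1) ≤ Ls * S ^ t ⊔ F ^ t := by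
    intro t
    induction t with
    | zero => simp
    | succ t ih =>
      rw [pow_succ' Ls (t + 1)]
      refine (mul_le_mul_right ih _).trans ?_
      rw [Submodule.mul_sup, ← mul_assoc]
      refine sup_le ((mul_le_mul_left hLL _).trans ?_) ?_
      · rw [Submodule.sup_mul, mul_assoc, ← pow_succ']
        exact sup_le le_sup_left ((hSF t).trans le_sup_right)
      · refine le_trans ?_ le_sup_right
        rw [pow_succ']; exact mul_le_mul_left hLF _
  obtain ⟨m, hm⟩ := span_pow_le hbr C hC hn
  have hB : ∀ t, F ^ (t + 1) ≤ F * (1 ⊔ S) ^ t := by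
    intro t
    induction t with
    | zero => simp
    | succ t ih =>
      have h1 : F ^ (t + 1) ≤ F * (1 ⊔ S) ^ (t + 1) :=
        ih.trans (mul_le_mul_right (pow_mono_one le_sup_left (Nat.le_succ t)) _)
      refine (sup_pow_le Ls (t + 1)).trans (sup_le ((hA _).trans (sup_le ?_ h1)) h1)
      exact mul_le_mul' hLF (pow_le_pow_left' le_sup_right _)
  have hC' : ∀ t, F ^ (m + 1 + t) ≤ F ^ (m + 1) := by
    intro t
    induction t with
    | zero => exact le_rfl
    | succ t ih =>
      refine le_trans ?_ ih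
      refine (sup_pow_le Ls (m + 1 + t)).trans (sup_le ((hA _).trans (sup_le ?_ le_rfl)) le_rfl)
      have : S ^ (m + 1 + t) ≤ F ^ (m + t) := by
        rw [pow_add, pow_add F]
        exact mul_le_mul' hm (pow_le_pow_left' (hSL.trans hLF) _)
      refine (mul_le_mul' hLF this).trans ?_
      rw [← pow_succ']
      exact le_of_eq (by congr 1; omega)
  exact ⟨m, fun t => ((pow_mono_one le_sup_left (by omega)).trans (hC' t)).trans (hB m)⟩

end Pool.Agent.MP_3312ae_al.HR.EJ
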